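import Pool.Agent.Lib.MP_678664_lc_MG.Union

/-! Approximation of the monotone functions of a circuit by closed families. -/

open Finset FewNeg FewNeg.ApproxAux

namespace MonGates

variable {E Z : Type} [Fintype E] [DecidableEq E] [Fintype Z] [Nonempty Z]

/-- Error term. -/
noncomputable def errm (N R c ρ r : ℕ) : ℝ :=
  ((N : ℝ) + 1) ^ (2 * c) * (3 / 4) ^ R + 4 * (2 ^ (2 * c + 2) * c * r / ρ) ^ (c + 1)

theorem errm_nonneg (N R c ρ r : ℕ) : 0 ≤ errm N R c ρ r := by
  unfold errm; positivity

/-- All minimal members of a family. -/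
def mins (A : Finset (Finset E)) : Finset (Finset E) := A.filter fun a => a ∈ minl A a.card

omit [Fintype E] [Nonempty Z] in
theorem hits_uni {ι : Type} [Fintype ι] [DecidableEq ι] (A : ι → Finset (Finset E)) (l : ι)
    {X : Finset E} (h : Hits (A l) (X : Set E)) :
    Hits (A l) ((uni (univ.biUnion fun l => mins (A l)) X : Finset E) : Set E) := by
  obtain ⟨a, ha, hmin, haX⟩ := ClosedAux.exists_minl h
  refine ⟨a, ha, ?_⟩
  rw [coe_subset] at haX ⊢
  apply subset_uni _ haX
  rw [mem_biUnion]
  exact ⟨l, mem_univ _, mem_filter.2 ⟨ha, hmin⟩⟩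

omit [Fintype Z] [Nonempty Z] in
theorem mins_degree {Q R c r : ℕ} (hQ : 0 < Q) (hc : 1 ≤ c) (A : Fin r → Finset (Finset E))
    (hA : ∀ l, Closed Q R c (A l)) (b : Finset E) (x : ℕ) (hx : 1 ≤ x) :
    ((univ.biUnion fun l => mins (A l)).filter fun a => b ⊆ a ∧ a.card = b.card + x).card ≤
      (r * (2 * c) * Q) ^ x := by
  classical
  rcases Nat.eq_zero_or_pos r with hr | hr
  · subst hr
    simp
  have hsub : ((univ.biUnion fun l => mins (A l)).filter
      fun a => b ⊆ a ∧ a.card = b.card + x) ⊆
      univ.biUnion fun l => (minl (A l) (b.card + x)).filter fun a => b ⊆ a := by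
    intro a ha
    rw [mem_filter, mem_biUnion] at ha
    obtain ⟨⟨l, -, hl⟩, hba, hac⟩ := ha
    rw [mem_biUnion]
    refine ⟨l, mem_univ _, ?_⟩
    rw [mem_filter]
    refine ⟨?_, hba⟩
    rw [← hac]
    exact (mem_filter.1 hl).2
  refine (card_le_card hsub).trans ?_
  have h1 : ∀ l ∈ (univ : Finset (Fin r)),
      ((minl (A l) (b.card + x)).filter fun a => b ⊆ a).card ≤ (2 * c * Q) ^ x := by
    intro l _
    have h2 := minl_degree (lam := 2 * c) hQ (by omega) (by omega) (hA l) (b.card + x) b
      (by omega)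
    rwa [Nat.add_sub_cancel_left] at h2
  refine (card_biUnion_le_card_mul _ _ _ h1).trans ?_
  rw [card_univ, Fintype.card_fin]
  calc r * (2 * c * Q) ^ x ≤ r ^ x * (2 * c * Q) ^ x :=
        Nat.mul_le_mul_right _ (Nat.le_self_pow (by omega) r)
    _ = _ := by rw [← mul_pow]; congr 1; ring

/-- The approximators of the first `n` gates. -/
theorem approximators {ι : Type} {Q R c ρ r : ℕ} (hQ : 0 < Q) (hc : 1 ≤ c) (hr : 1 ≤ r)
    (hρ : 8 * (1 + 2 * c) ≤ ρ) (hρr : 2 * (2 ^ (2 * c + 1) * (r * (2 * c))) ≤ ρ)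
    {Y : Z → Set E} (hY : Spread Y (Q * ρ) (2 * c))
    {a : Set E → ι → Prop} (ha : IsLit a) (C : Circuit ι) (β : ℕ → Prop) (n : ℕ)
    (hfan : ∀ i < n, (C i).fanIn ≤ r) :
    ∃ (A : ℕ → Finset (Finset E)) (bp : Z → Prop) (bn : Set E → Prop),
      avg (fun z => ind (bp z)) ≤ n * (4 * (2 ^ (2 * c + 2) * c * r / ρ : ℝ) ^ (c + 1)) ∧
      (T Q)^[R] (fun S => ind (bn S)) ∅
        ≤ n * (((Fintype.card E : ℝ) + 1) ^ (2 * c) * (3 / 4) ^ R) ∧
      ∀ i < n, Closed Q R c (A i) ∧
        (∀ z, ¬ bp z → C.mval β (a (Y z)) i → Hits (A i) (Y z)) ∧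
        (∀ S, ¬ bn S → Hits (A i) S → C.mval β (a S) i) := by
  classical
  have hρ0 : 0 < ρ := by omega
  have hρr' : (0 : ℝ) < ρ := by exact_mod_cast hρ0
  have hrR : (1 : ℝ) ≤ r := by exact_mod_cast hr
  have hcR : (1 : ℝ) ≤ c := by exact_mod_cast hc
  have hx1 : (2 * (c : ℝ) / ρ) ^ (c + 1) ≤ (2 ^ (2 * c + 2) * c * r / ρ : ℝ) ^ (c + 1) := by
    apply pow_le_pow_left₀ (by positivity)
    apply div_le_div_of_nonneg_right _ hρr'.le
    have h1 : (2 : ℝ) ≤ 2 ^ (2 * c + 2) := by
      calc (2 : ℝ) = 2 ^ 1 := by norm_num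
        _ ≤ 2 ^ (2 * c + 2) := pow_le_pow_right₀ (by norm_num) (by omega)
    calc 2 * (c : ℝ) ≤ 2 ^ (2 * c + 2) * c := by gcongr
      _ = 2 ^ (2 * c + 2) * c * 1 := by ring
      _ ≤ 2 ^ (2 * c + 2) * c * r := by gcongr
  induction n with
  | zero =>
    refine ⟨fun _ => ∅, fun _ => False, fun _ => False, ?_, ?_, ?_⟩
    · have : (fun _ : Z => ind False) = fun _ => 0 := by
        funext z; exact ind_false (fun h => h)
      rw [this, avg_const]; simp
    · have : (fun _ : Set E => ind False) = fun _ => 0 := by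
        funext z; exact ind_false (fun h => h)
      rw [this, T_iter_const hQ]; simp
    · intro i hi
      omega
  | succ n ih =>
    obtain ⟨A, bp, bn, hbp, hbn, hA⟩ := ih fun i hi => hfan i (by omega)
    -- a family for gate `n`
    have hgate : ∃ (D : Finset (Finset E)) (bad : Z → Prop),
        avg (fun z => ind (bad z)) ≤ 2 * (2 ^ (2 * c + 2) * c * r / ρ : ℝ) ^ (c + 1) ∧
        (∀ x ∈ D, x.card ≤ 2 * c) ∧
        (∀ z, ¬ bp z → ¬ bad z → C.mval β (a (Y z)) n → Hits D (Y z)) ∧
        (∀ S, ¬ bn S → Hits D S → C.mval β (a S) n) := by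
      have hF : avg (fun _ : Z => ind False) ≤
          2 * (2 ^ (2 * c + 2) * c * r / ρ : ℝ) ^ (c + 1) := by
        have : (fun _ : Z => ind False) = fun _ => 0 := by
          funext z; exact ind_false (fun h => h)
        rw [this, avg_const]
        positivity
      cases hC : C n with
      | input v =>
        have hval : ∀ S, C.mval β (a S) n ↔ a S v := by
          intro S; rw [Circuit.mval.eq_def, hC]
        rcases ha v with h | h | ⟨e, he⟩
        · refine ⟨{∅}, fun _ => False, hF, by simp, fun z _ _ _ => hits_top _, fun S _ _ => ?_⟩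
          rw [hval]; exact h S
        · refine ⟨∅, fun _ => False, hF, by simp, fun z _ _ hv => ?_,
            fun S _ hh => absurd hh (not_hits_bot S)⟩
          rw [hval] at hv
          exact absurd hv (h _)
        · refine ⟨{{e}}, fun _ => False, hF, ?_, fun z _ _ hv => ?_, fun S _ hh => ?_⟩
          · intro x hx
            rw [Finset.mem_singleton] at hx
            rw [hx, Finset.card_singleton]; omega
          · rw [hval, he] at hv
            exact (hits_single e _).2 hv
          · rw [hval, he]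
            exact (hits_single e _).1 hh
      | mono r' w g hg =>
        have hval : ∀ S, C.mval β (a S) n ↔ g fun l => C.mval β (a S) (w l) := by
          intro S; rw [Circuit.mval.eq_def, hC]
        have hr' : r' ≤ r := by
          have h1 := hfan n (by omega)
          rw [hC] at h1
          exact h1
        obtain ⟨N, hN⟩ : ∃ N : Finset (Finset E), N = univ.biUnion fun l => mins (A (w l)) :=
          ⟨_, rfl⟩
        have hNc : ∀ x ∈ N, x.card ≤ c := by
          intro x hx
          rw [hN, mem_biUnion] at hx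
          obtain ⟨l, -, hl⟩ := hx
          exact (hA (w l) (w l).isLt).1.1 x (mem_filter.1 hl).1
        have hdeg : ∀ (b : Finset E) (x : ℕ), 1 ≤ x →
            (N.filter fun a => b ⊆ a ∧ a.card = b.card + x).card ≤ (r * (2 * c) * Q) ^ x := by
          intro b x hx
          rw [hN]
          refine (mins_degree hQ hc (fun l => A (w l)) (fun l => (hA (w l) (w l).isLt).1)
            b x hx).trans ?_
          apply Nat.pow_le_pow_left
          gcongr
        have herr := union_error hY hQ hNc hdeg hρr hρ0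
        refine ⟨univ.filter fun U : Finset E => U.card ≤ c ∧ g fun l => Hits (A (w l)) (U : Set E),
          fun z => ∃ X : Finset E, (X : Set E) ⊆ Y z ∧ c < (uni N X).card, ?_, ?_, ?_, ?_⟩
        · refine herr.trans (le_of_eq ?_)
          congr 2
          push_cast
          ring
        · intro x hx
          rw [mem_filter] at hx
          omega
        · intro z hz hbad hv
          rw [hval] at hv
          obtain ⟨X, hX⟩ : ∃ X : Finset E, X = univ.filter fun e => e ∈ Y z := ⟨_, rfl⟩
          have hXY : (X : Set E) = Y z := by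
            rw [hX]; ext e; simp
          have hUc : (uni N X).card ≤ c := by
            by_contra hcon
            push Not at hcon
            exact hbad ⟨X, hXY.subset, hcon⟩
          refine ⟨uni N X, ?_, ?_⟩
          · rw [mem_filter]
            refine ⟨mem_univ _, hUc, ?_⟩
            refine hg _ _ (fun l hl => ?_) hv
            have h1 : Hits (A (w l)) (X : Set E) := by
              rw [hXY]
              exact (hA (w l) (w l).isLt).2.1 z hz hl
            have h2 := hits_uni (fun l => A (w l)) l h1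
            rw [← hN] at h2
            exact h2
          · rw [← hXY, coe_subset]
            exact uni_subset N X
        · intro S hS hh
          rw [hval]
          obtain ⟨U, hU, hUS⟩ := hh
          rw [mem_filter] at hU
          refine hg _ _ (fun l hl => ?_) hU.2.2
          exact (hA (w l) (w l).isLt).2.2 S hS (ClosedAux.hits_mono hUS hl)
      | other r' w g =>
        have hval : ∀ S, C.mval β (a S) n ↔ β n := by
          intro S; rw [Circuit.mval.eq_def, hC]
        obtain ⟨D, hD0, hD⟩ := exists_const (E := E) (β n)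
        exact ⟨D, fun _ => False, hF, fun x hx => by rw [hD0 x hx]; omega,
          fun z _ _ hv => (hD _).2 ((hval _).1 hv), fun S _ hh => (hval _).2 ((hD _).1 hh)⟩
    obtain ⟨D, bad, hbad, hD1, hD2, hD3⟩ := hgate
    obtain ⟨B, hB, hBp, hBn⟩ := exists_trunc (R := R) hQ hc hρ hY D hD1
    refine ⟨Function.update A n B, fun z => bp z ∨ (bad z ∨ (Hits D (Y z) ∧ ¬ Hits B (Y z))),
      fun S => bn S ∨ (Hits B S ∧ ¬ Hits D S), ?_, ?_, ?_⟩
    · have h1 : ∀ z, ind (bp z ∨ (bad z ∨ (Hits D (Y z) ∧ ¬ Hits B (Y z)))) ≤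
          ind (bp z) + (ind (bad z) + ind (Hits D (Y z) ∧ ¬ Hits B (Y z))) := fun z =>
        (ind_or_le _ _).trans (by
          have := ind_or_le (bad z) (Hits D (Y z) ∧ ¬ Hits B (Y z))
          linarith)
      refine (avg_mono h1).trans ?_
      rw [avg_add, avg_add]
      push_cast
      linarith
    · refine (T_iter_mono' (fun S => ind_or_le _ _) R ∅).trans ?_
      rw [T_iter_add]
      push_cast
      linarith
    · intro i hi
      rcases Nat.lt_succ_iff_lt_or_eq.1 hi with h | h
      · rw [Function.update_of_ne (by omega)]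
        obtain ⟨h1, h2, h3⟩ := hA i h
        exact ⟨h1, fun z hz hv => h2 z (fun hh => hz (Or.inl hh)) hv,
          fun S hS hv => h3 S (fun hh => hS (Or.inl hh)) hv⟩
      · subst h
        rw [Function.update_self]
        refine ⟨hB, fun z hz hv => ?_, fun S hS hv => ?_⟩
        · by_contra hn
          exact hz (Or.inr (Or.inr ⟨hD2 z (fun hh => hz (Or.inl hh))
            (fun hh => hz (Or.inr (Or.inl hh))) hv, hn⟩))
        · apply hD3 S (fun hh => hS (Or.inl hh))
          by_contra hn
          exact hS (Or.inr ⟨hv, hn⟩)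

/-- Small monotone circuits cannot see the planted set. -/
theorem mono_bound {ι : Type}
    {Q R c ρ r : ℕ} (hQ : 0 < Q) (hR : 0 < R) (hc : 1 ≤ c) (hr : 1 ≤ r)
    (hρ : 8 * (1 + 2 * c) ≤ ρ) (hρr : 2 * (2 ^ (2 * c + 1) * (r * (2 * c))) ≤ ρ)
    {Y : Z → Set E} (hY : Spread Y (Q * ρ) (2 * c))
    {a : Set E → ι → Prop} (ha : IsLit a) (C : Circuit ι) (β : ℕ → Prop) {i s : ℕ}
    (hfan : ∀ i < s, (C i).fanIn ≤ r) (his : i < s) (G : Set E) :
    avg (fun z => ind (C.mval β (a (G ∪ Y z)) i))
      ≤ (T Q)^[R] (fun S => ind (C.mval β (a S) i)) G + s * errm (Fintype.card E) R c ρ r := by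
  classical
  have ha' : IsLit (fun S => a (G ∪ S)) := by
    intro v
    rcases ha v with h | h | ⟨e, he⟩
    · exact Or.inl fun x => h _
    · exact Or.inr (Or.inl fun x => h _)
    · by_cases heG : e ∈ G
      · exact Or.inl fun x => (he _).2 (Or.inl heG)
      · refine Or.inr (Or.inr ⟨e, fun x => ?_⟩)
        change a (G ∪ x) v ↔ e ∈ x
        rw [he]
        constructor
        · rintro (h | h)
          · exact absurd h heG
          · exact h
        · exact fun h => Or.inr h
  obtain ⟨A, bp, bn, hbp, hbn, hA⟩ := approximators (R := R) hQ hc hr hρ hρr hY ha' C β s hfan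
  obtain ⟨h1, h2, h3⟩ := hA i his
  have hYc : Spread Y (Q * ρ) c := fun x hx => hY x (by omega)
  have hcmp := closed_compare (lam := 2 * c) hQ hR (by omega) (by omega) hρ hYc h1
  have hstep1 : avg (fun z => ind (C.mval β (a (G ∪ Y z)) i))
      ≤ avg (fun z => ind (Hits (A i) (Y z))) + avg (fun z => ind (bp z)) := by
    rw [← avg_add]
    apply avg_mono
    intro z
    refine le_trans (ind_mono ?_) (ind_or_le _ _)
    intro hv
    by_cases hb : bp z
    · exact Or.inr hb
    · exact Or.inl (h2 z hb hv)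
  have hstep2 : (T Q)^[R] (fun S => ind (Hits (A i) S)) ∅
      ≤ (T Q)^[R] (fun S => ind (C.mval β (a (G ∪ S)) i)) ∅ + (T Q)^[R] (fun S => ind (bn S)) ∅ := by
    have hpt : ∀ S : Set E, ind (Hits (A i) S)
        ≤ ind (C.mval β (a (G ∪ S)) i) + ind (bn S) := by
      intro S
      refine le_trans (ind_mono ?_) (ind_or_le _ _)
      intro hv
      by_cases hb : bn S
      · exact Or.inr hb
      · exact Or.inl (h3 S hb hv)
    have := T_iter_mono' (Q := Q) hpt R ∅
    rw [T_iter_add] at this
    exact this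
  have hshift : (T Q)^[R] (fun S => ind (C.mval β (a (G ∪ S)) i)) ∅
      = (T Q)^[R] (fun S => ind (C.mval β (a S) i)) G := by
    have := T_iter_shift Q (fun S => ind (C.mval β (a S) i)) G R ∅
    rw [Set.union_empty] at this
    exact this
  rw [hshift] at hstep2
  unfold errm
  rw [mul_add]
  linarith

end MonGates
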