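import Mathlib

/-!
# Circuits of arbitrary monotone gates and few other gates: definitions

A circuit has monotone gates, which compute arbitrary monotone Boolean functions of any number of
gates (for example AND, OR, majority, or a clique function on some of the gates), and further
gates, which compute arbitrary Boolean functions (for example NOT gates, parities). Its inputs are
the variables `x (u, v)`, true if and only if `u v` is an edge, for the pairs of vertices of a
graph on `Fin n`.
-/

open Finset

namespace MonGates

/-- A gate which may refer to the gates with numbers `< i`. The gate `mono r w g _` computes the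
monotone function `g` of the values of the `r` gates `w 0, …, w (r - 1)`; the gate `other r w g`
computes the arbitrary function `g` of these values. -/
inductive Gate (ι : Type) (i : ℕ) : Type
  | input (v : ι)
  | mono (r : ℕ) (w : Fin r → Fin i) (g : (Fin r → Prop) → Prop)
      (hg : ∀ x y : Fin r → Prop, (∀ l, x l → y l) → g x → g y)
  | other (r : ℕ) (w : Fin r → Fin i) (g : (Fin r → Prop) → Prop)

/-- Number of input wires, if the gate is a monotone gate. -/
def Gate.fanIn {ι : Type} {i : ℕ} : Gate ι i → ℕ
  | .mono r _ _ _ => r
  | _ => 0

/-- Is the gate one of the further gates? -/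
def Gate.isOther {ι : Type} {i : ℕ} : Gate ι i → Bool
  | .other _ _ _ => true
  | _ => false

/-- Number of input wires, if the gate is one of the further gates. -/
def Gate.wires {ι : Type} {i : ℕ} : Gate ι i → ℕ
  | .other r _ _ => r
  | _ => 0

/-- A circuit: gate number `i` refers only to gates with smaller numbers. A circuit with `s`
gates is given by the gates with numbers `< s`; the other ones are irrelevant. -/
abbrev Circuit (ι : Type) := (i : ℕ) → Gate ι i

/-- The value of gate number `i` on the input `x`. -/
def Circuit.val {ι : Type} (C : Circuit ι) (x : ι → Prop) (i : ℕ) : Prop :=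
  match C i with
  | .input v => x v
  | .mono _ w g _ => g fun l => C.val x (w l)
  | .other _ w g => g fun l => C.val x (w l)
termination_by i
decreasing_by all_goals exact Fin.isLt _

/-- Number of further gates among the gates with numbers `< s`. -/
def Circuit.numOther {ι : Type} (C : Circuit ι) (s : ℕ) : ℕ :=
  ((range s).filter fun i => (C i).isOther = true).card

/-- Number of input wires of these gates altogether. -/
def Circuit.numWires {ι : Type} (C : Circuit ι) (s : ℕ) : ℕ :=
  ∑ i ∈ range s, (C i).wires

/-- Probability of the event `A`, where `j` has probability `p j`. -/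
noncomputable def Prob {M : ℕ} (p : Fin M → ℝ) (A : Fin M → Prop) : ℝ := by
  classical exact ∑ j, if A j then p j else 0

/-- There is a randomized circuit (a probability distribution `p` on circuits `C j` with output
gates `o j`) with `s` gates: monotone gates with at most `r` input wires each, and at most `t`
further gates with at most `m` input wires altogether, which accepts with probability at least
`1 / 2 + δ` every graph on `Fin n` with a `k`-clique, and with probability at most `1 / 2 - δ`
every graph on `Fin n` without `k'`-clique. -/
def HasRandomCircuit (n s r t m k k' : ℕ) (δ : ℝ) : Prop :=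
  ∃ (M : ℕ) (p : Fin M → ℝ) (C : Fin M → Circuit (Fin n × Fin n)) (o : Fin M → ℕ),
    (∀ j, 0 ≤ p j) ∧ ∑ j, p j = 1 ∧
    (∀ j, o j < s ∧ (∀ i < s, (C j i).fanIn ≤ r) ∧ (C j).numOther s ≤ t ∧
      (C j).numWires s ≤ m) ∧
    (∀ G : SimpleGraph (Fin n), ¬ G.CliqueFree k →
      1 / 2 + δ ≤ Prob p fun j => (C j).val (fun e => G.Adj e.1 e.2) (o j)) ∧
    (∀ G : SimpleGraph (Fin n), G.CliqueFree k' →
      Prob p (fun j => (C j).val (fun e => G.Adj e.1 e.2) (o j)) ≤ 1 / 2 - δ)

end MonGates
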