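import Pool.Agent.Lib.MP_678664_lc_MG.Rand
import Pool.Agent.Lib.MP_678664_lc_FG.Main

/-! Choice of the parameters and the main theorem. -/

open Finset Filter FewNeg

namespace MonGates

open FewGates (Sat graph_gap sat_bound m_large)

/-- Few random layers satisfy few positions. -/
theorem sat_small {q D u A τ σ : ℕ} (hu : 2 ≤ u) (hτ : 2 * (q + 1) ≤ A * τ)
    (φ : Fin (q + 1) → Fin D → Fin q) {i : ℕ} (hi : i < u ^ σ) :
    (T (u ^ (σ + 1 + A)))^[i * u] (fun S : Set (El q D u) => ind (Sat φ τ S)) ∅ ≤ 1 / (u : ℝ) := by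
  have hu0 : 0 < u := by omega
  refine (sat_bound (Nat.pow_pos hu0) φ τ _).trans ?_
  have hu' : (2 : ℝ) ≤ u := by exact_mod_cast hu
  have hu1 : (0 : ℝ) < u := by linarith
  have h1 : (((i * u : ℕ) : ℝ) / ((u ^ (σ + 1 + A) : ℕ) : ℝ)) ≤ 1 / (u : ℝ) ^ A := by
    rw [div_le_div_iff₀ (by positivity) (by positivity), one_mul]
    have h2 : i * u * u ^ A ≤ u ^ (σ + 1 + A) := by
      calc i * u * u ^ A = i * u ^ (1 + A) := by ring
        _ ≤ u ^ σ * u ^ (1 + A) := Nat.mul_le_mul_right _ hi.le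
        _ = u ^ (σ + 1 + A) := by rw [← pow_add]; congr 1; omega
    exact_mod_cast h2
  calc (u : ℝ) ^ q * 2 ^ (q + 1) * (((i * u : ℕ) : ℝ) / ((u ^ (σ + 1 + A) : ℕ) : ℝ)) ^ τ
      ≤ (u : ℝ) ^ q * (u : ℝ) ^ (q + 1) * (1 / (u : ℝ) ^ A) ^ τ := by gcongr
    _ = (u : ℝ) ^ (2 * q + 1) / (u : ℝ) ^ (A * τ) := by
        rw [one_div_pow, ← pow_mul, ← pow_add, mul_one_div]
        congr 2
        ring
    _ ≤ (u : ℝ) ^ (2 * q + 1) / (u : ℝ) ^ (2 * (q + 1)) := by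
        apply div_le_div_of_nonneg_left (by positivity) (by positivity)
        exact pow_le_pow_right₀ (by linarith) hτ
    _ = 1 / (u : ℝ) := by
        rw [show 2 * (q + 1) = (2 * q + 1) + 1 by ring, pow_succ (u : ℝ) (2 * q + 1)]
        field_simp

/-- The lower bound for fixed parameters. -/
theorem core {n q d u e c s r t m k' L A τ σ : ℕ} {δ : ℝ} (hd : 3 + A + σ ≤ 2 * d)
    (hn : 2 * (q + 1) * u ^ d + e ≤ n)
    (φ : Fin (q + 1) → Fin (2 * d) → Fin q) (hφ : Expands φ L) (hL : 2 * c ≤ L) (hc : 1 ≤ c)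
    (hr : 1 ≤ r) (hu : 2 ≤ u) (hρ : 8 * (1 + 2 * c) ≤ u ^ (2 * d - 3 - A - σ))
    (hρr : 2 * (2 ^ (2 * c + 1) * (r * (2 * c))) ≤ u ^ (2 * d - 3 - A - σ))
    (hτ : 2 * (q + 1) ≤ A * τ) (hδ : 1 / (u : ℝ) ≤ δ)
    (hk' : q + 1 + τ + e ≤ k')
    (hC : HasRandomCircuit n s r t m (2 * (q + 1) + e) k' δ) :
    δ * (u : ℝ) ^ σ ≤ (((m : ℝ) + 1) * 2 ^ t) *
      (1 + (u : ℝ) ^ σ * (s * errm ((q + 1) * u ^ (2 * d)) u c (u ^ (2 * d - 3 - A - σ)) r)) := by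
  classical
  obtain ⟨M₀, p, C, o, hp, hp1, hCo, hyes, hno⟩ := hC
  have hu0 : 0 < u := by omega
  have hd3 : 3 ≤ 2 * d := by omega
  obtain ⟨Γ, hlit, hmono, hcl, hgap⟩ := graph_gap hu0 hn φ
  have hne : Nonempty (Fin q → Fin u) := ⟨fun _ => ⟨0, hu0⟩⟩
  have hY := M.spread_mono (spread_Yw hu0 hd3 φ hφ) hL
  have hQρ : u ^ (2 * d - 3) * u = u ^ (σ + 1 + A) * u ^ (2 * d - 3 - A - σ) := by
    rw [← pow_succ, ← pow_add]
    congr 1
    omega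
  rw [hQρ] at hY
  have key := rand_bound (Q := u ^ (σ + 1 + A)) (R := u) (c := c)
    (ρ := u ^ (2 * d - 3 - A - σ)) (r := r)
    (Nat.pow_pos hu0) hu0 hc hr hρ hρr hY hlit hmono hp hp1 (C := C) (o := o) (s := s)
    (m := u ^ σ) (fun j => (hCo j).1) (fun j => (hCo j).2.1) (W := ((m : ℝ) + 1) * 2 ^ t) (δ := δ)
    (by
      intro j
      push_cast
      have h1 : ((C j).numWires s : ℝ) ≤ m := by exact_mod_cast (hCo j).2.2.2
      have h2 : ((2 : ℝ) ^ (C j).numOther s) ≤ 2 ^ t :=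
        pow_le_pow_right₀ (by norm_num) (hCo j).2.2.1
      have h3 : (0 : ℝ) ≤ ((C j).numWires s : ℝ) := Nat.cast_nonneg _
      gcongr)
    (Bad := Sat φ τ)
    (fun S w hS => hyes (Γ S) (hcl S w hS))
    (fun S hS => hno (Γ S) ((hgap S τ hS).mono hk'))
    (fun i hi => (sat_small hu hτ φ hi).trans hδ)
  rw [M.card_El] at key
  push_cast at key ⊢
  exact key

/-- The error term. -/
theorem err_small (q d c : ℕ) :
    ∀ᶠ u : ℕ in atTop, (u : ℝ) ^ c * (((((q + 1) * u ^ (2 * d) : ℕ) : ℝ) + 1) ^ (2 * c) *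
      (3 / 4) ^ u + 4 * (2 ^ (2 * c + 2) * c / (u : ℝ) ^ 2) ^ (c + 1)) ≤ 1 := by
  have h1 : Tendsto (fun u : ℕ => ((q : ℝ) + 2) ^ (2 * c) *
      ((u : ℝ) ^ (c + 2 * d * (2 * c)) * (3 / 4 : ℝ) ^ u)) atTop
      (nhds (((q : ℝ) + 2) ^ (2 * c) * 0)) :=
    (tendsto_pow_const_mul_const_pow_of_abs_lt_one _
      (by rw [abs_of_pos] <;> norm_num)).const_mul _
  rw [mul_zero] at h1
  have h2 : Tendsto (fun u : ℕ => 4 * ((2 : ℝ) ^ (2 * c + 2) * (c : ℝ)) ^ (c + 1) *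
      (1 / (u : ℝ))) atTop (nhds (4 * ((2 : ℝ) ^ (2 * c + 2) * (c : ℝ)) ^ (c + 1) * 0)) :=
    tendsto_one_div_atTop_nhds_zero_nat.const_mul _
  rw [mul_zero] at h2
  filter_upwards [h1.eventually_le_const (show (0 : ℝ) < 1 / 2 by norm_num),
    h2.eventually_le_const (show (0 : ℝ) < 1 / 2 by norm_num), eventually_ge_atTop 1]
    with u hu1 hu2 hu
  have hu' : (1 : ℝ) ≤ u := by exact_mod_cast hu
  have hu0 : (0 : ℝ) < u := by linarith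
  have e2 : (((q + 1) * u ^ (2 * d) : ℕ) : ℝ) + 1 ≤ ((q : ℝ) + 2) * (u : ℝ) ^ (2 * d) := by
    push_cast
    have : (1 : ℝ) ≤ (u : ℝ) ^ (2 * d) := one_le_pow₀ hu'
    nlinarith
  have e3 : ((((q + 1) * u ^ (2 * d) : ℕ) : ℝ) + 1) ^ (2 * c) ≤
      ((q : ℝ) + 2) ^ (2 * c) * (u : ℝ) ^ (2 * d * (2 * c)) := by
    calc _ ≤ (((q : ℝ) + 2) * (u : ℝ) ^ (2 * d)) ^ (2 * c) :=
          pow_le_pow_left₀ (by positivity) e2 _
      _ = _ := by rw [mul_pow, ← pow_mul]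
  rw [mul_add]
  have t1 : (u : ℝ) ^ c * (((((q + 1) * u ^ (2 * d) : ℕ) : ℝ) + 1) ^ (2 * c) * (3 / 4) ^ u) ≤
      1 / 2 := by
    calc _ ≤ (u : ℝ) ^ c * ((((q : ℝ) + 2) ^ (2 * c) * (u : ℝ) ^ (2 * d * (2 * c))) *
          (3 / 4) ^ u) := by gcongr
      _ = ((q : ℝ) + 2) ^ (2 * c) * ((u : ℝ) ^ (c + 2 * d * (2 * c)) * (3 / 4 : ℝ) ^ u) := by
          rw [pow_add]; ring
      _ ≤ 1 / 2 := hu1
  have t2 : (u : ℝ) ^ c * (4 * (2 ^ (2 * c + 2) * c / (u : ℝ) ^ 2) ^ (c + 1)) ≤ 1 / 2 := by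
    refine le_trans ?_ hu2
    have h3 : (u : ℝ) ^ (c + 1) ≤ ((u : ℝ) ^ 2) ^ (c + 1) := by
      apply pow_le_pow_left₀ hu0.le
      nlinarith
    rw [div_pow]
    calc (u : ℝ) ^ c * (4 * ((2 ^ (2 * c + 2) * c) ^ (c + 1) / ((u : ℝ) ^ 2) ^ (c + 1)))
        ≤ (u : ℝ) ^ c * (4 * ((2 ^ (2 * c + 2) * c) ^ (c + 1) / (u : ℝ) ^ (c + 1))) := by
          gcongr
      _ = _ := by
          rw [pow_succ (u : ℝ) c]
          field_simp
  linarith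

theorem main : ∀ ε : ℝ, 0 < ε → ∃ c : ℝ, 0 < c ∧ ∃ k₀ : ℕ, ∀ k ≥ k₀, ∃ n₀ : ℕ, ∀ n ≥ n₀,
    ∀ s r t m k' : ℕ, ((m : ℝ) + 1) * 2 ^ t * (r + 1) ≤ (n : ℝ) ^ (2 - ε) →
      (1 / 2 + ε) * k ≤ k' → HasRandomCircuit n s r t m k k' ε → (n : ℝ) ^ (c * k) ≤ s := by
  intro ε hε
  obtain ⟨A, hA2, hAε⟩ : ∃ A : ℕ, 2 ≤ A ∧ 2 / ε ≤ A :=
    ⟨⌈2 / ε⌉₊ + 2, by omega, (Nat.le_ceil _).trans (by push_cast; linarith)⟩
  obtain ⟨d, hdA, hdε⟩ : ∃ d : ℕ, A + 5 ≤ d ∧ (A : ℝ) + 7 ≤ ε * d := by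
    refine ⟨⌈(A + 7) / ε⌉₊ + A + 5, by omega, ?_⟩
    have h1 : ((A : ℝ) + 7) / ε ≤ ⌈((A : ℝ) + 7) / ε⌉₊ := Nat.le_ceil _
    rw [div_le_iff₀ hε] at h1
    push_cast
    have h2 : (0 : ℝ) ≤ ε * (A + 5) := by positivity
    nlinarith
  obtain ⟨K, hK, hexp⟩ := exists_expander (2 * d) (by omega)
  have hK' : (0 : ℝ) < K := by exact_mod_cast hK
  refine ⟨1 / (8 * (K : ℝ) * (d + 1)), by positivity,
    8 * K * (2 * d + 2) + ⌈3 / ε⌉₊, fun k hk => ?_⟩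
  -- parameters depending on `k`
  obtain ⟨q, hq⟩ : ∃ q, q = k / 2 - 1 := ⟨_, rfl⟩
  obtain ⟨e, he⟩ : ∃ e, e = k - 2 * (q + 1) := ⟨_, rfl⟩
  obtain ⟨c, hc⟩ : ∃ c, c = q / K / 2 := ⟨_, rfl⟩
  obtain ⟨τ, hτ⟩ : ∃ τ, τ = ⌈ε * ((q : ℝ) + 1)⌉₊ := ⟨_, rfl⟩
  have hk1 : 8 * K * (2 * d + 2) ≤ k := by omega
  have hk0 : 96 ≤ 8 * K * (2 * d + 2) := by
    calc 96 = 8 * 1 * (2 * 5 + 2) := by norm_num
      _ ≤ 8 * K * (2 * d + 2) := by
          have : 5 ≤ d := by omega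
          gcongr
          exact hK
  have hq0 : 0 < q := by omega
  have hke : 2 * (q + 1) + e = k := by omega
  have he1 : e ≤ 1 := by omega
  have hc1 : q < 2 * K * (c + 1) := by
    have h1 : q / K < 2 * (c + 1) := by omega
    have h2 := (Nat.div_lt_iff_lt_mul hK).1 h1
    calc q < 2 * (c + 1) * K := h2
      _ = _ := by ring
  have hc2 : 4 * d + 3 ≤ c := by
    by_contra hcon
    have h3 : c + 1 ≤ 4 * d + 3 := by omega
    have h4 : 2 * K * (c + 1) ≤ 2 * K * (4 * d + 3) := Nat.mul_le_mul_left _ h3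
    have h5 : 8 * K * (2 * d + 2) = 2 * (2 * K * (4 * d + 3)) + 4 * K := by ring
    omega
  have hkc : k ≤ 8 * K * (c - 2 * d) := by
    obtain ⟨c', hc'⟩ : ∃ c', c = 2 * d + c' := ⟨c - 2 * d, by omega⟩
    have h6 : c - 2 * d = c' := by omega
    rw [h6]
    have h7 : c + 1 + 2 ≤ 2 * c' := by omega
    have h8 : 2 * K * (c + 1) + 4 * K ≤ 4 * K * c' := by
      calc 2 * K * (c + 1) + 4 * K = 2 * K * (c + 1 + 2) := by ring
        _ ≤ 2 * K * (2 * c') := Nat.mul_le_mul_left _ h7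
        _ = _ := by ring
    have h9 : 8 * K * c' = 2 * (4 * K * c') := by ring
    omega
  have hqr : (0 : ℝ) < (q : ℝ) + 1 := by positivity
  have hτA : 2 * (q + 1) ≤ A * τ := by
    have h1 : ε * ((q : ℝ) + 1) ≤ τ := by rw [hτ]; exact Nat.le_ceil _
    have h2 : (2 : ℝ) ≤ A * ε := by rw [div_le_iff₀ hε] at hAε; exact hAε
    have h3 : (2 : ℝ) * ((q : ℝ) + 1) ≤ A * τ := by
      calc (2 : ℝ) * ((q : ℝ) + 1) ≤ (A * ε) * ((q : ℝ) + 1) :=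
            mul_le_mul_of_nonneg_right h2 hqr.le
        _ = A * (ε * ((q : ℝ) + 1)) := by ring
        _ ≤ A * τ := mul_le_mul_of_nonneg_left h1 (Nat.cast_nonneg _)
    exact_mod_cast h3
  have hgapk : ∀ k' : ℕ, (1 / 2 + ε) * (k : ℝ) ≤ k' → q + 1 + τ + e ≤ k' := by
    intro k' hk'
    have h1 : (τ : ℝ) < ε * ((q : ℝ) + 1) + 1 := by
      rw [hτ]; exact Nat.ceil_lt_add_one (by positivity)
    have h2 : (k : ℝ) = 2 * ((q : ℝ) + 1) + e := by rw [← hke]; push_cast; ring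
    have h3 : (3 : ℝ) / ε ≤ k := by
      refine (Nat.le_ceil _).trans ?_
      have : ⌈3 / ε⌉₊ ≤ k := by omega
      exact_mod_cast this
    rw [div_le_iff₀ hε, h2] at h3
    have h4 : (e : ℝ) ≤ 1 := by exact_mod_cast he1
    have h5 : (0 : ℝ) ≤ e := Nat.cast_nonneg _
    rw [h2] at hk'
    have h6 : ((q + 1 + τ + e : ℕ) : ℝ) ≤ k' := by
      push_cast
      nlinarith
    exact_mod_cast h6
  obtain ⟨φ, hφ⟩ := hexp q hq0
  -- a lower bound for `u`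
  obtain ⟨u₁, hu₁⟩ := eventually_atTop.1 (err_small q d c)
  obtain ⟨C, hC⟩ : ∃ C, C = 2 * (q + 1) * 2 ^ d + e := ⟨_, rfl⟩
  obtain ⟨n₁, hn₁⟩ := eventually_atTop.1 (m_large (A := A + 2) (ε := ε) (d := d) (by omega)
    (by omega) (by push_cast; linarith) hε C)
  obtain ⟨u₀, hu₀⟩ : ∃ u₀, u₀ = u₁ + C + 8 * (1 + 2 * c) + ⌈1 / ε⌉₊ + ⌈ε⌉₊ +
    2 ^ (2 * c + 3) * c := ⟨_, rfl⟩
  refine ⟨n₁ + (2 * (q + 1) * u₀ ^ d + e) + 1, fun n hn s r t m k' ht hk' hcirc => ?_⟩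
  obtain ⟨u, huu, hnu, hnC⟩ := M.exists_u (a := 2 * (q + 1)) (d := d) (e := e) (u₀ := u₀) (n := n)
    (by omega) (by omega) (by omega) (by omega)
  rw [← hC] at hnC
  have hu1 : 1 ≤ u := by omega
  have hu1r : (1 : ℝ) ≤ u := by exact_mod_cast hu1
  have huε : 1 / (u : ℝ) ≤ ε := by
    have h1 : 1 / ε ≤ u := by
      refine (Nat.le_ceil _).trans ?_
      have : ⌈1 / ε⌉₊ ≤ u := by omega
      exact_mod_cast this
    rw [div_le_iff₀ hε] at h1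
    rw [div_le_iff₀ (by linarith)]
    linarith
  have hεu : ε ≤ u := by
    refine (Nat.le_ceil _).trans ?_
    have : ⌈ε⌉₊ ≤ u := by omega
    exact_mod_cast this
  have hfin : (n : ℝ) ^ (1 / (8 * (K : ℝ) * (d + 1)) * k) ≤ (u : ℝ) ^ (c - 2 * d) :=
    M.final_exp hK hkc (by omega) hu1 (by omega) hnC
  refine hfin.trans ?_
  by_contra hs
  have hs' : (s : ℝ) < (u : ℝ) ^ (c - 2 * d) := not_le.1 hs
  rw [← hke] at hcirc
  -- the number of steps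
  obtain ⟨W, hW⟩ : ∃ W : ℝ, W = ((m : ℝ) + 1) * 2 ^ t := ⟨_, rfl⟩
  have hW1 : 1 ≤ W := by
    rw [hW]
    have h1 : (1 : ℝ) ≤ 2 ^ t := one_le_pow₀ (by norm_num)
    have h2 : (0 : ℝ) ≤ m := Nat.cast_nonneg _
    nlinarith
  rw [← hW] at ht
  have hu2 : 2 ≤ u := by omega
  have hu2r : (2 : ℝ) ≤ u := by exact_mod_cast hu2
  have hex : ∃ σ : ℕ, 2 * W < ε * (u : ℝ) ^ σ := by
    obtain ⟨σ, hσ⟩ := pow_unbounded_of_one_lt (2 * W / ε) (by linarith : (1 : ℝ) < u)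
    refine ⟨σ, ?_⟩
    rw [div_lt_iff₀ hε] at hσ
    linarith
  have hσ1 := Nat.find_spec hex
  have hσ2 := fun j hj => Nat.find_min hex (m := j) hj
  obtain ⟨σ, hσ⟩ : ∃ σ, σ = Nat.find hex := ⟨_, rfl⟩
  rw [← hσ] at hσ1 hσ2
  have hσ3 : ε * (u : ℝ) ^ σ ≤ 2 * W * u := by
    rcases Nat.eq_zero_or_pos σ with h0 | h0
    · rw [h0, pow_zero, mul_one]
      nlinarith
    · have h1 := hσ2 (σ - 1) (by omega)
      rw [not_lt] at h1
      have h2 : (u : ℝ) ^ σ = (u : ℝ) ^ (σ - 1) * u := by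
        rw [← pow_succ]
        congr 1
        omega
      rw [h2, ← mul_assoc]
      exact mul_le_mul_of_nonneg_right h1 (by linarith)
  have h12 := hn₁ n (by omega) u (by omega) hnC
  have hrr : (0 : ℝ) ≤ (r : ℝ) := Nat.cast_nonneg _
  -- the fan-in and the number of steps are small
  have hprod : ((r : ℝ) + 1) * (u : ℝ) ^ σ < (u : ℝ) ^ (2 * d - 5 - A) := by
    have h1 : (u : ℝ) ^ (2 * d - 5 - A) = (u : ℝ) ^ (2 * d - 4 - (A + 2)) * u := by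
      rw [← pow_succ]
      congr 1
      omega
    have h2 : ε * (((r : ℝ) + 1) * (u : ℝ) ^ σ) ≤ 2 * (W * (r + 1)) * u := by
      calc ε * (((r : ℝ) + 1) * (u : ℝ) ^ σ) = (r + 1) * (ε * (u : ℝ) ^ σ) := by ring
        _ ≤ (r + 1) * (2 * W * u) := mul_le_mul_of_nonneg_left hσ3 (by linarith)
        _ = _ := by ring
    have h3 : 2 * (W * (r + 1)) * u < ε * (u : ℝ) ^ (2 * d - 5 - A) := by
      have h4 : 2 * (W * ((r : ℝ) + 1)) < ε * (u : ℝ) ^ (2 * d - 4 - (A + 2)) := by linarith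
      have hu0r : (0 : ℝ) < u := by linarith
      rw [h1]
      calc 2 * (W * ((r : ℝ) + 1)) * u < ε * (u : ℝ) ^ (2 * d - 4 - (A + 2)) * u :=
            mul_lt_mul_of_pos_right h4 hu0r
        _ = _ := by ring
    exact lt_of_mul_lt_mul_left (h2.trans_lt h3) hε.le
  have hprodN : (r + 1) * u ^ σ < u ^ (2 * d - 5 - A) := by exact_mod_cast hprod
  have hσd : σ < 2 * d - 5 - A := by
    have h1 : u ^ σ < u ^ (2 * d - 5 - A) := by
      refine lt_of_le_of_lt ?_ hprodN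
      exact Nat.le_mul_of_pos_left _ (by omega)
    exact (Nat.pow_lt_pow_iff_right (by omega)).1 h1
  have hρ2 : (r + 1) * u ^ 2 < u ^ (2 * d - 3 - A - σ) := by
    have h1 : (r + 1) * u ^ 2 * u ^ σ < u ^ (2 * d - 3 - A - σ) * u ^ σ := by
      calc (r + 1) * u ^ 2 * u ^ σ = (r + 1) * u ^ σ * u ^ 2 := by ring
        _ < u ^ (2 * d - 5 - A) * u ^ 2 :=
            Nat.mul_lt_mul_of_pos_right hprodN (Nat.pow_pos (by omega))
        _ = u ^ (2 * d - 3 - A - σ) * u ^ σ := by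
            rw [← pow_add, ← pow_add]
            congr 1
            omega
    exact lt_of_mul_lt_mul_right h1 (Nat.zero_le _)
  obtain ⟨ρ, hρ⟩ : ∃ ρ, ρ = u ^ (2 * d - 3 - A - σ) := ⟨_, rfl⟩
  rw [← hρ] at hρ2
  have huρ : (r + 1) * u ≤ ρ := by
    refine le_trans ?_ hρ2.le
    apply Nat.mul_le_mul_left
    calc u = u ^ 1 := (pow_one _).symm
      _ ≤ u ^ 2 := Nat.pow_le_pow_right (by omega) (by omega)
  have huρ1 : u ≤ ρ := le_trans (Nat.le_mul_of_pos_left _ (by omega)) huρ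
  have hcirc' : HasRandomCircuit n s (r + 1) t m (2 * (q + 1) + e) k' ε := by
    obtain ⟨M₀, p, C', o, hp, hp1, hCo, hyes, hno⟩ := hcirc
    exact ⟨M₀, p, C', o, hp, hp1, fun j => ⟨(hCo j).1,
      fun i hi => ((hCo j).2.1 i hi).trans (Nat.le_succ _), (hCo j).2.2⟩, hyes, hno⟩
  have hb := core (A := A) (τ := τ) (c := c) (k' := k') (δ := ε) (σ := σ) (r := r + 1) (by omega)
    hnu φ hφ (by omega) (by omega) (by omega) hu2 (by rw [← hρ]; omega) (by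
      rw [← hρ]
      refine le_trans ?_ huρ
      calc 2 * (2 ^ (2 * c + 1) * ((r + 1) * (2 * c))) = (r + 1) * (2 ^ (2 * c + 3) * c) := by
            ring
        _ ≤ (r + 1) * u := Nat.mul_le_mul_left _ (by omega))
    hτA huε (hgapk k' hk') hcirc'
  rw [← hρ, ← hW] at hb
  have herr := hu₁ u (by omega)
  have herr0 : 0 ≤ errm ((q + 1) * u ^ (2 * d)) u c ρ (r + 1) := errm_nonneg _ _ _ _ _
  have herr2 : errm ((q + 1) * u ^ (2 * d)) u c ρ (r + 1) ≤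
      ((((q + 1) * u ^ (2 * d) : ℕ) : ℝ) + 1) ^ (2 * c) *
      (3 / 4) ^ u + 4 * (2 ^ (2 * c + 2) * c / (u : ℝ) ^ 2) ^ (c + 1) := by
    unfold errm
    have hρ0 : (0 : ℝ) < ρ := by
      have : 0 < ρ := by omega
      exact_mod_cast this
    have h1 : (2 ^ (2 * c + 2) * (c : ℝ) * ((r + 1 : ℕ) : ℝ) / ρ) ≤
        2 ^ (2 * c + 2) * c / (u : ℝ) ^ 2 := by
      rw [div_le_div_iff₀ hρ0 (by positivity)]
      have h2 : (((r + 1) * u ^ 2 : ℕ) : ℝ) ≤ ρ := by exact_mod_cast hρ2.le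
      push_cast at h2 ⊢
      calc 2 ^ (2 * c + 2) * (c : ℝ) * ((r : ℝ) + 1) * (u : ℝ) ^ 2
          = 2 ^ (2 * c + 2) * (c : ℝ) * (((r : ℝ) + 1) * (u : ℝ) ^ 2) := by ring
        _ ≤ 2 ^ (2 * c + 2) * (c : ℝ) * ρ := by gcongr
    have h3 := pow_le_pow_left₀ (by positivity) h1 (c + 1)
    linarith
  have h10 : (u : ℝ) ^ σ * (s * errm ((q + 1) * u ^ (2 * d)) u c ρ (r + 1)) ≤ 1 := by
    refine le_trans ?_ herr
    have h1 : (u : ℝ) ^ σ ≤ (u : ℝ) ^ (2 * d) := pow_le_pow_right₀ hu1r (by omega)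
    have h2 : (u : ℝ) ^ σ * s ≤ (u : ℝ) ^ c := by
      calc (u : ℝ) ^ σ * s ≤ (u : ℝ) ^ (2 * d) * (u : ℝ) ^ (c - 2 * d) :=
            mul_le_mul h1 hs'.le (Nat.cast_nonneg _) (by positivity)
        _ = (u : ℝ) ^ c := by
            rw [← pow_add]
            congr 1
            omega
    rw [← mul_assoc]
    exact mul_le_mul h2 herr2 herr0 (by positivity)
  have h13 : W * (1 + (u : ℝ) ^ σ * (s * errm ((q + 1) * u ^ (2 * d)) u c ρ (r + 1))) ≤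
      W * 2 := mul_le_mul_of_nonneg_left (by linarith) (by linarith)
  linarith

end MonGates
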