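import Pool.Agent.Lib.MP_678664_lc_MG.Defs
import Pool.Agent.Lib.MP_678664_lc_FN.Basic

/-! Separation of `x ≤ y` by monotone functions, and the chain of random sets. -/

open Finset FewNeg

namespace MonGates

/-- The value of gate number `i` on the input `x` if every further gate `j` is replaced by the
constant `β j`. -/
def Circuit.mval {ι : Type} (C : Circuit ι) (β : ℕ → Prop) (x : ι → Prop) (i : ℕ) : Prop :=
  match C i with
  | .input v => x v
  | .mono _ w g _ => g fun l => C.mval β x (w l)
  | .other _ _ _ => β i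
termination_by i
decreasing_by all_goals exact Fin.isLt _

theorem mval_mono {ι : Type} (C : Circuit ι) (β : ℕ → Prop) {x y : ι → Prop}
    (hxy : ∀ v, x v → y v) (i : ℕ) : C.mval β x i → C.mval β y i := by
  induction i using Nat.strong_induction_on with
  | _ i ih =>
    intro h
    unfold Circuit.mval at h ⊢
    cases hC : C i with
    | input v => rw [hC] at h; exact hxy v h
    | mono r w g hg =>
      rw [hC] at h
      exact hg _ _ (fun l => ih (w l) (w l).isLt) h
    | other r w g => rw [hC] at h; exact h

/-- If the constants are the right ones below `i`, then `mval` is `val`. -/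
theorem mval_iff {ι : Type} (C : Circuit ι) (β : ℕ → Prop) (x : ι → Prop) (i : ℕ)
    (h : ∀ j ≤ i, (C j).isOther = true → (β j ↔ C.val x j)) : C.mval β x i ↔ C.val x i := by
  induction i using Nat.strong_induction_on with
  | _ i ih =>
    have ih' : ∀ a : Fin i, C.mval β x a ↔ C.val x a := fun a =>
      ih a a.isLt (fun j hj hn => h j (hj.trans a.isLt.le) hn)
    cases hC : C i with
    | input v => unfold Circuit.mval Circuit.val; rw [hC]
    | mono r w g hg =>
      unfold Circuit.mval Circuit.val
      rw [hC]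
      have h2 : (fun l => C.mval β x (w l)) = fun l => C.val x (w l) :=
        funext fun l => propext (ih' (w l))
      simp only [h2]
    | other r w g =>
      have h1 := h i le_rfl (by rw [hC]; rfl)
      unfold Circuit.mval
      rw [hC]
      exact h1

/-- The input gates of a gate of the third kind. -/
def pre {i : ℕ} {ι : Type} (G : Gate ι i) : Finset ℕ :=
  match G with
  | .other _ w _ => univ.image fun l => (w l : ℕ)
  | _ => ∅

theorem card_pre {i : ℕ} {ι : Type} (G : Gate ι i) : (pre G).card ≤ G.wires := by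
  cases G with
  | other r w g =>
    refine (card_image_le).trans ?_
    rw [card_univ, Fintype.card_fin]
    exact le_rfl
  | _ => simp [pre, Gate.wires]

theorem lt_of_mem_pre {i : ℕ} {ι : Type} {G : Gate ι i} {j : ℕ} (h : j ∈ pre G) : j < i := by
  cases G with
  | other r w g =>
    simp only [pre, mem_image, mem_univ, true_and] at h
    obtain ⟨l, rfl⟩ := h
    exact (w l).isLt
  | _ => simp [pre] at h

/-- If a circuit separates `x ≤ y`, then so does one of `(m + 1) * 2 ^ t` monotone functions. -/
theorem separate {ι : Type} (C : Circuit ι) (o s : ℕ) (ho : o < s) :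
    ∃ H : Finset (ℕ × Finset ℕ), H.card ≤ (C.numWires s + 1) * 2 ^ C.numOther s ∧
      (∀ h ∈ H, h.1 < s) ∧
      ∀ x y : ι → Prop, (∀ v, x v → y v) → ¬ C.val x o → C.val y o →
        ∃ h ∈ H, ¬ C.mval (fun j => j ∈ h.2) x h.1 ∧ C.mval (fun j => j ∈ h.2) y h.1 := by
  classical
  set J : Finset ℕ := (range s).filter fun i => (C i).isOther = true with hJ
  have hJc : J.card = C.numOther s := rfl
  refine ⟨(insert o ((range s).biUnion fun j => pre (C j))) ×ˢ J.powerset, ?_, ?_, ?_⟩
  · rw [card_product, card_powerset, hJc]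
    apply Nat.mul_le_mul_right
    refine (card_insert_le _ _).trans ?_
    apply Nat.add_le_add_right
    refine card_biUnion_le.trans ?_
    exact sum_le_sum fun j _ => card_pre _
  · intro h hh
    rw [mem_product, mem_insert, mem_biUnion] at hh
    rcases hh.1 with h1 | ⟨j, hj, h1⟩
    · rw [h1]; exact ho
    · exact (lt_of_mem_pre h1).trans (mem_range.1 hj)
  · intro x y hxy hx hy
    set P : Finset ℕ := J.filter fun j => C.val x j with hP
    have hPJ : P ∈ J.powerset := by rw [mem_powerset]; exact filter_subset _ _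
    have hPx : ∀ j < s, (C j).isOther = true → (j ∈ P ↔ C.val x j) := by
      intro j hj hn
      rw [hP, mem_filter, hJ, mem_filter, mem_range]
      exact ⟨fun h => h.2, fun h => ⟨⟨hj, hn⟩, h⟩⟩
    by_cases hall : ∀ j ≤ o, (C j).isOther = true → (C.val x j ↔ C.val y j)
    · refine ⟨(o, P), ?_, ?_, ?_⟩
      · rw [mem_product]; exact ⟨mem_insert_self _ _, hPJ⟩
      · rw [mval_iff C _ x o (fun j hj hn => hPx j (lt_of_le_of_lt hj ho) hn)]
        exact hx
      · rw [mval_iff C _ y o (fun j hj hn =>
          (hPx j (lt_of_le_of_lt hj ho) hn).trans (hall j hj hn))]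
        exact hy
    · have hex : ∃ j, j ≤ o ∧ (C j).isOther = true ∧ ¬ (C.val x j ↔ C.val y j) := by
        by_contra hno
        apply hall
        intro j hj hn
        by_contra h
        exact hno ⟨j, hj, hn, h⟩
      obtain ⟨hj1, hj2, hj3⟩ := Nat.find_spec hex
      have hmin := fun m hm => Nat.find_min hex (m := m) hm
      set j := Nat.find hex with hjdef
      have hjs : j < s := lt_of_le_of_lt hj1 ho
      cases hC : C j with
      | other r w g =>
        have hvx : C.val x j ↔ g fun l => C.val x (w l) := by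
          rw [Circuit.val.eq_def, hC]
        have hvy : C.val y j ↔ g fun l => C.val y (w l) := by
          rw [Circuit.val.eq_def, hC]
        have hne : ∃ l, ¬ (C.val x (w l) ↔ C.val y (w l)) := by
          by_contra hno
          push Not at hno
          apply hj3
          rw [hvx, hvy]
          have : (fun l => C.val x (w l)) = fun l => C.val y (w l) :=
            funext fun l => propext (hno l)
          rw [this]
        obtain ⟨l, hl⟩ := hne
        have haj : (w l : ℕ) < j := (w l).isLt
        have hbelow : ∀ i ≤ (w l : ℕ), (C i).isOther = true → (C.val x i ↔ C.val y i) := by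
          intro i hi hn
          by_contra h
          exact hmin i (lt_of_le_of_lt hi haj) ⟨((hi.trans haj.le).trans hj1), hn, h⟩
        have hmx := mval_iff C (fun j => j ∈ P) x (w l)
          (fun i hi hn => hPx i (lt_of_le_of_lt (hi.trans haj.le) hjs) hn)
        have hmy := mval_iff C (fun j => j ∈ P) y (w l)
          (fun i hi hn => (hPx i (lt_of_le_of_lt (hi.trans haj.le) hjs) hn).trans (hbelow i hi hn))
        have hmono := mval_mono C (fun j => j ∈ P) hxy (w l)
        rw [hmx, hmy] at hmono
        refine ⟨((w l : ℕ), P), ?_, ?_, ?_⟩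
        · rw [mem_product]
          refine ⟨mem_insert_of_mem (mem_biUnion.2 ⟨j, mem_range.2 hjs, ?_⟩), hPJ⟩
          rw [hC]
          simp only [pre, mem_image, mem_univ, true_and]
          exact ⟨l, rfl⟩
        · change ¬ C.mval (fun j => j ∈ P) x (w l)
          rw [hmx]
          intro h
          exact hl ⟨fun _ => hmono h, fun _ => h⟩
        · change C.mval (fun j => j ∈ P) y (w l)
          rw [hmy]
          by_contra h
          exact hl ⟨fun h' => absurd (hmono h') h, fun h' => absurd h' h⟩
      | input v => rw [hC] at hj2; exact absurd hj2 (by simp [Gate.isOther])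
      | mono r w g hg => rw [hC] at hj2; exact absurd hj2 (by simp [Gate.isOther])

/-- Chain bound for one circuit: the number of steps is at most the expected number of errors
plus the number of changes of the monotone functions. -/
theorem chain_bound {ι E Z : Type} [Fintype E] [DecidableEq E] [Fintype Z] [Nonempty Z]
    {Q R : ℕ} (hQ : 0 < Q) {Y : Z → Set E} {e : ℝ} (he : 0 ≤ e)
    {a : Set E → ι → Prop} (hamono : ∀ S S' : Set E, S ⊆ S' → ∀ v, a S v → a S' v)
    (C : Circuit ι) {o s : ℕ} (ho : o < s) (m : ℕ)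
    (hmono : ∀ (β : ℕ → Prop) (i : ℕ), i < s → ∀ G : Set E,
      avg (fun z => ind (C.mval β (a (G ∪ Y z)) i))
        ≤ (T Q)^[R] (fun S => ind (C.mval β (a S) i)) G + e) :
    (m : ℝ) ≤ (∑ i ∈ range m, (T Q)^[i * R] (fun S => ind (C.val (a S) o) +
        avg (fun z => ind (¬ C.val (a (S ∪ Y z)) o))) ∅) +
      ((C.numWires s + 1) * 2 ^ C.numOther s : ℕ) * (1 + m * e) := by
  classical
  obtain ⟨H, hH, hHs, hsep⟩ := separate C o s ho
  obtain ⟨F, hF⟩ : ∃ F : ℕ × Finset ℕ → Set E → ℝ,
    F = fun h S => ind (C.mval (fun j => j ∈ h.2) (a S) h.1) := ⟨_, rfl⟩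
  obtain ⟨B, hB⟩ : ∃ B : Set E → ℝ, B = fun S => ind (C.val (a S) o) +
        avg (fun z => ind (¬ C.val (a (S ∪ Y z)) o)) := ⟨_, rfl⟩
  rw [← hB]
  have hFmono : ∀ h S S', S ⊆ S' → F h S ≤ F h S' := fun h S S' hS => by
    rw [hF]; exact ind_mono (mval_mono C _ (hamono S S' hS) h.1)
  -- the pointwise inequality
  have key : ∀ S : Set E, (1 : ℝ) ≤ B S + ∑ h ∈ H, ((T Q)^[R] (F h) S - F h S + e) := by
    intro S
    have hnn : ∀ h ∈ H, 0 ≤ (T Q)^[R] (F h) S - F h S + e := by
      intro h _
      have := T_iter_le_of_le hQ (hFmono h) (Nat.zero_le R) S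
      rw [Function.iterate_zero, id] at this
      linarith
    have hsn := sum_nonneg hnn
    have hav : 0 ≤ avg (fun z => ind (¬ C.val (a (S ∪ Y z)) o)) := avg_nonneg fun _ => ind_nonneg _
    by_cases hv : C.val (a S) o
    · rw [hB]
      simp only
      rw [ind_true hv]
      linarith
    · have h1 : (1 : ℝ) ≤ avg (fun z => ind (¬ C.val (a (S ∪ Y z)) o)) +
          ∑ h ∈ H, avg (fun z : Z => ind (¬ C.mval (fun j => j ∈ h.2) (a S) h.1 ∧
            C.mval (fun j => j ∈ h.2) (a (S ∪ Y z)) h.1)) := by
        rw [← avg_sum, ← avg_add]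
        calc (1 : ℝ) = avg (fun _ : Z => (1 : ℝ)) := (avg_const 1).symm
          _ ≤ _ := by
            apply avg_mono
            intro z
            have hs0 : 0 ≤ ∑ h ∈ H, ind (¬ C.mval (fun j => j ∈ h.2) (a S) h.1 ∧
                C.mval (fun j => j ∈ h.2) (a (S ∪ Y z)) h.1) :=
              sum_nonneg fun h _ => ind_nonneg _
            by_cases hz : C.val (a (S ∪ Y z)) o
            · obtain ⟨h, hh, hs⟩ := hsep (a S) (a (S ∪ Y z))
                (hamono _ _ Set.subset_union_left) hv hz
              have h2 := single_le_sum (f := fun h : ℕ × Finset ℕ =>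
                  ind (¬ C.mval (fun j => j ∈ h.2) (a S) h.1 ∧
                    C.mval (fun j => j ∈ h.2) (a (S ∪ Y z)) h.1))
                  (fun h _ => ind_nonneg _) hh
              rw [ind_true hs] at h2
              have h3 := ind_nonneg (¬ C.val (a (S ∪ Y z)) o)
              linarith
            · rw [ind_true hz]
              linarith
      have h2 : ∀ h ∈ H, avg (fun z : Z => ind (¬ C.mval (fun j => j ∈ h.2) (a S) h.1 ∧
            C.mval (fun j => j ∈ h.2) (a (S ∪ Y z)) h.1))
            ≤ (T Q)^[R] (F h) S - F h S + e := by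
        intro h hh
        by_cases hm : C.mval (fun j => j ∈ h.2) (a S) h.1
        · have h3 : avg (fun z : Z => ind (¬ C.mval (fun j => j ∈ h.2) (a S) h.1 ∧
              C.mval (fun j => j ∈ h.2) (a (S ∪ Y z)) h.1)) = 0 := by
            have : (fun z : Z => ind (¬ C.mval (fun j => j ∈ h.2) (a S) h.1 ∧
              C.mval (fun j => j ∈ h.2) (a (S ∪ Y z)) h.1)) = fun _ => (0 : ℝ) := by
              funext z
              exact ind_false (fun hc => hc.1 hm)
            rw [this, avg_const]
          rw [h3]
          exact hnn h hh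
        · have hF0 : F h S = 0 := by rw [hF]; exact ind_false hm
          rw [hF0, sub_zero]
          have h3 := hmono (fun j => j ∈ h.2) h.1 (hHs h hh) S
          have h4 : (T Q)^[R] (F h) S =
              (T Q)^[R] (fun S => ind (C.mval (fun j => j ∈ h.2) (a S) h.1)) S := by
            rw [hF]
          rw [h4]
          exact (avg_mono fun z => ind_mono fun hc => hc.2).trans h3
      have h5 := sum_le_sum h2
      have h6 : B S = avg (fun z => ind (¬ C.val (a (S ∪ Y z)) o)) := by
        rw [hB]
        simp only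
        rw [ind_false hv, zero_add]
      rw [h6]
      linarith
  -- apply the averaging operators
  have step : ∀ i < m, (1 : ℝ) ≤ (T Q)^[i * R] B ∅ +
      ∑ h ∈ H, ((T Q)^[(i + 1) * R] (F h) ∅ - (T Q)^[i * R] (F h) ∅ + e) := by
    intro i hi
    have h2 := T_iter_mono' (Q := Q) key (i * R) ∅
    rw [T_iter_const hQ, T_iter_add, T_iter_sum H (fun h S => (T Q)^[R] (F h) S - F h S + e)] at h2
    refine h2.trans (le_of_eq ?_)
    change (T Q)^[i * R] B ∅ + ∑ a ∈ H, (T Q)^[i * R] (fun S => (T Q)^[R] (F a) S - F a S + e) ∅ = _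
    congr 1
    apply sum_congr rfl
    intro h _
    rw [T_iter_add (fun S => (T Q)^[R] (F h) S - F h S) (fun _ => e), T_iter_const hQ,
      T_iter_sub ((T Q)^[R] (F h)) (F h)]
    simp only
    rw [← Function.iterate_add_apply, Nat.succ_mul]
  have hsum : (m : ℝ) ≤ (∑ i ∈ range m, (T Q)^[i * R] B ∅) +
      ∑ h ∈ H, ((T Q)^[m * R] (F h) ∅ - F h ∅ + m * e) := by
    calc (m : ℝ) = ∑ i ∈ range m, (1 : ℝ) := by
          rw [sum_const, card_range, nsmul_eq_mul, mul_one]
      _ ≤ ∑ i ∈ range m, ((T Q)^[i * R] B ∅ + ∑ h ∈ H,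
            ((T Q)^[(i + 1) * R] (F h) ∅ - (T Q)^[i * R] (F h) ∅ + e)) :=
          sum_le_sum fun i hi => step i (mem_range.1 hi)
      _ = (∑ i ∈ range m, (T Q)^[i * R] B ∅) +
            ∑ h ∈ H, ((T Q)^[m * R] (F h) ∅ - F h ∅ + m * e) := by
          rw [sum_add_distrib]
          congr 1
          rw [sum_comm]
          apply sum_congr rfl
          intro h _
          rw [sum_add_distrib, sum_range_sub (fun i => (T Q)^[i * R] (F h) ∅), sum_const,
            card_range, nsmul_eq_mul, zero_mul]
          rfl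
  have hF01 : ∀ h S, 0 ≤ F h S ∧ F h S ≤ 1 := fun h S => by
    rw [hF]; exact ⟨ind_nonneg _, ind_le_one _⟩
  have hbd : ∀ h ∈ H, (T Q)^[m * R] (F h) ∅ - F h ∅ + m * e ≤ 1 + m * e := by
    intro h _
    have h4 : (T Q)^[m * R] (F h) ∅ ≤ 1 := by
      calc (T Q)^[m * R] (F h) ∅ ≤ (T Q)^[m * R] (fun _ : Set E => (1 : ℝ)) ∅ :=
            T_iter_mono' (fun S => (hF01 h S).2) _ _
        _ = 1 := by rw [T_iter_const hQ]
    have h5 : 0 ≤ F h ∅ := (hF01 h ∅).1
    linarith
  have hcard : ∑ h ∈ H, ((T Q)^[m * R] (F h) ∅ - F h ∅ + m * e) ≤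
      ((C.numWires s + 1) * 2 ^ C.numOther s : ℕ) * (1 + m * e) := by
    calc ∑ h ∈ H, ((T Q)^[m * R] (F h) ∅ - F h ∅ + m * e)
        ≤ ∑ h ∈ H, (1 + m * e) := sum_le_sum hbd
      _ = H.card * (1 + m * e) := by rw [sum_const, nsmul_eq_mul]
      _ ≤ _ := by
          apply mul_le_mul_of_nonneg_right
          · exact_mod_cast hH
          · positivity
  linarith

end MonGates
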