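import Pool.Agent.Lib.MP_678664_lc_MG.Sep
import Pool.Agent.Lib.MP_678664_lc_FN.Approx

/-! Unions of minimal members of several closed families: few of each size, hence large ones are
rarely contained in the planted set. -/

open Finset FewNeg

namespace MonGates

variable {E Z : Type} [Fintype E] [DecidableEq E] [Fintype Z]

/-- The union of the members of `N` contained in `U`. -/
def uni (N : Finset (Finset E)) (U : Finset E) : Finset E := (N.filter fun a => a ⊆ U).sup id

/-- `U` is a union of members of `N`. -/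
def Gen (N : Finset (Finset E)) (U : Finset E) : Prop := uni N U = U

omit [Fintype E] in
theorem uni_subset (N : Finset (Finset E)) (U : Finset E) : uni N U ⊆ U := by
  unfold uni
  intro e he
  rw [Finset.mem_sup] at he
  obtain ⟨a, ha, hea⟩ := he
  exact (mem_filter.1 ha).2 hea

omit [Fintype E] in
theorem subset_uni {N : Finset (Finset E)} {U a : Finset E} (ha : a ∈ N) (haU : a ⊆ U) :
    a ⊆ uni N U := by
  unfold uni
  intro e he
  rw [Finset.mem_sup]
  exact ⟨a, mem_filter.2 ⟨ha, haU⟩, he⟩

omit [Fintype E] in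
theorem gen_empty (N : Finset (Finset E)) : Gen N ∅ :=
  Finset.subset_empty.1 (uni_subset N ∅)

omit [Fintype E] in
theorem gen_union {N : Finset (Finset E)} {V a : Finset E} (hV : Gen N V) (ha : a ∈ N) :
    Gen N (V ∪ a) := by
  apply Finset.Subset.antisymm (uni_subset _ _)
  intro e he
  rcases mem_union.1 he with h | h
  · have h1 : e ∈ uni N V := by
      have h2 : uni N V = V := hV
      rw [h2]; exact h
    unfold uni at h1 ⊢
    rw [Finset.mem_sup] at h1 ⊢
    obtain ⟨b, hb, heb⟩ := h1
    rw [mem_filter] at hb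
    exact ⟨b, mem_filter.2 ⟨hb.1, hb.2.trans subset_union_left⟩, heb⟩
  · exact subset_uni ha subset_union_right h

omit [Fintype E] in
/-- If a member of `N` below `X` is not below `V`, a generated subset of `X` can be enlarged. -/
theorem exists_step {N : Finset (Finset E)} {X : Finset E} (c : ℕ) (hX : c < (uni N X).card)
    (hN : ∀ a ∈ N, a.card ≤ c) :
    ∃ V, Gen N V ∧ V ⊆ X ∧ c < V.card ∧ V.card ≤ 2 * c := by
  classical
  have hne : (X.powerset.filter fun V => Gen N V ∧ V.card ≤ c).Nonempty :=
    ⟨∅, by simp [gen_empty]⟩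
  obtain ⟨V, hV, hmax⟩ := exists_max_image _ Finset.card hne
  rw [mem_filter, mem_powerset] at hV
  obtain ⟨hVX, hVg, hVc⟩ := hV
  have hex : ∃ a ∈ N, a ⊆ X ∧ ¬ a ⊆ V := by
    by_contra hno
    push Not at hno
    have h1 : uni N X ⊆ V := by
      intro e he
      unfold uni at he
      rw [Finset.mem_sup] at he
      obtain ⟨a, ha, hea⟩ := he
      rw [mem_filter] at ha
      exact hno a ha.1 ha.2 hea
    have := card_le_card h1
    omega
  obtain ⟨a, ha, haX, haV⟩ := hex
  refine ⟨V ∪ a, gen_union hVg ha, union_subset hVX haX, ?_, ?_⟩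
  · by_contra hle
    push Not at hle
    have h1 := hmax (V ∪ a) (by
      rw [mem_filter, mem_powerset]
      exact ⟨union_subset hVX haX, gen_union hVg ha, hle⟩)
    have h2 : V ∪ a = V := (eq_of_subset_of_card_le subset_union_left h1).symm
    apply haV
    rw [← h2]
    exact subset_union_right
  · have h1 := card_union_le V a
    have h2 := hN a ha
    omega

omit [Fintype E] in
/-- A nonempty generated set is a smaller generated set plus one member. -/
theorem exists_pred {N : Finset (Finset E)} {U : Finset E} (hU : Gen N U) (h0 : 0 < U.card) :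
    ∃ V a, Gen N V ∧ V.card < U.card ∧ a ∈ N ∧ V ∪ a = U := by
  classical
  have hne : (U.powerset.filter fun V => Gen N V ∧ V.card < U.card).Nonempty :=
    ⟨∅, by simp [gen_empty, card_pos.1 h0]⟩
  obtain ⟨V, hV, hmax⟩ := exists_max_image _ Finset.card hne
  rw [mem_filter, mem_powerset] at hV
  obtain ⟨hVU, hVg, hVc⟩ := hV
  have hex : ∃ a ∈ N, a ⊆ U ∧ ¬ a ⊆ V := by
    by_contra hno
    push Not at hno
    have h1 : U ⊆ V := by
      intro e he
      have h2 : uni N U = U := hU
      rw [← h2] at he
      unfold uni at he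
      rw [Finset.mem_sup] at he
      obtain ⟨a, ha, hea⟩ := he
      rw [mem_filter] at ha
      exact hno a ha.1 ha.2 hea
    have := card_le_card h1
    omega
  obtain ⟨a, ha, haU, haV⟩ := hex
  refine ⟨V, a, hVg, hVc, ha, ?_⟩
  have hsub : V ∪ a ⊆ U := union_subset hVU haU
  by_contra hne2
  have hlt : (V ∪ a).card < U.card := by
    rcases Nat.lt_or_ge (V ∪ a).card U.card with h | h
    · exact h
    · exact absurd (eq_of_subset_of_card_le hsub h) hne2
  have h1 := hmax (V ∪ a) (by
    rw [mem_filter, mem_powerset]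
    exact ⟨hsub, gen_union hVg ha, hlt⟩)
  have h2 : V ∪ a = V := (eq_of_subset_of_card_le subset_union_left h1).symm
  apply haV
  rw [← h2]
  exact subset_union_right

/-- Number of unions of size `L`. -/
theorem card_gen {N : Finset (Finset E)} {M K : ℕ}
    (hdeg : ∀ (b : Finset E) (x : ℕ), 1 ≤ x →
      (N.filter fun a => b ⊆ a ∧ a.card = b.card + x).card ≤ K ^ x)
    (L : ℕ) (hL : L ≤ M) :
    open Classical in
    (univ.filter fun U : Finset E => U.card = L ∧ Gen N U).card ≤ (2 ^ (M + 1) * K) ^ L := by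
  classical
  induction L using Nat.strong_induction_on with
  | _ L ih =>
  rcases Nat.eq_zero_or_pos L with h0 | h0
  · subst h0
    rw [pow_zero, card_le_one]
    intro a ha b hb
    rw [mem_filter] at ha hb
    rw [card_eq_zero.1 ha.2.1, card_eq_zero.1 hb.2.1]
  · have hsub : (univ.filter fun U : Finset E => U.card = L ∧ Gen N U) ⊆
        (Icc 1 L).biUnion fun x =>
          (univ.filter fun V : Finset E => V.card = L - x ∧ Gen N V).biUnion fun V =>
            V.powerset.biUnion fun b =>
              (N.filter fun a => b ⊆ a ∧ a.card = b.card + x).image fun a => V ∪ a := by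
      intro U hU
      rw [mem_filter] at hU
      obtain ⟨-, hUL, hUg⟩ := hU
      obtain ⟨V, a, hVg, hVc, ha, hVa⟩ := exists_pred hUg (by omega)
      have hcard : V.card + (a \ V).card = L := by
        rw [← hUL, ← hVa, ← card_union_of_disjoint (disjoint_sdiff), union_sdiff_self_eq_union]
      rw [mem_biUnion]
      refine ⟨(a \ V).card, ?_, ?_⟩
      · rw [mem_Icc]; omega
      · rw [mem_biUnion]
        refine ⟨V, ?_, ?_⟩
        · rw [mem_filter]
          exact ⟨mem_univ _, by omega, hVg⟩
        · rw [mem_biUnion]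
          refine ⟨a ∩ V, ?_, ?_⟩
          · rw [mem_powerset]; exact inter_subset_right
          · rw [mem_image]
            refine ⟨a, ?_, hVa⟩
            rw [mem_filter]
            exact ⟨ha, inter_subset_left, by rw [← card_inter_add_card_sdiff a V]⟩
    refine (card_le_card hsub).trans ?_
    have hx : ∀ x ∈ Icc 1 L, ((univ.filter fun V : Finset E => V.card = L - x ∧ Gen N V).biUnion
        fun V => V.powerset.biUnion fun b =>
          (N.filter fun a => b ⊆ a ∧ a.card = b.card + x).image fun a => V ∪ a).card ≤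
        (2 ^ (M + 1) * K) ^ (L - x) * (2 ^ M * K) ^ x := by
      intro x hx
      rw [mem_Icc] at hx
      have h1 : ∀ V ∈ (univ.filter fun V : Finset E => V.card = L - x ∧ Gen N V),
          (V.powerset.biUnion fun b =>
            (N.filter fun a => b ⊆ a ∧ a.card = b.card + x).image fun a => V ∪ a).card ≤
            (2 ^ M * K) ^ x := by
        intro V hV
        rw [mem_filter] at hV
        have h2 : ∀ b ∈ V.powerset,
            ((N.filter fun a => b ⊆ a ∧ a.card = b.card + x).image fun a => V ∪ a).card ≤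
              K ^ x := fun b _ => card_image_le.trans (hdeg b x hx.1)
        calc _ ≤ V.powerset.card * K ^ x := card_biUnion_le_card_mul _ _ _ h2
          _ = 2 ^ (L - x) * K ^ x := by rw [card_powerset, hV.2.1]
          _ ≤ (2 ^ M) ^ x * K ^ x := by
              apply Nat.mul_le_mul_right
              rw [← pow_mul]
              apply Nat.pow_le_pow_right (by norm_num)
              have h3 : M * 1 ≤ M * x := Nat.mul_le_mul_left _ hx.1
              omega
          _ = _ := (mul_pow _ _ _).symm
      calc _ ≤ (univ.filter fun V : Finset E => V.card = L - x ∧ Gen N V).card *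
            (2 ^ M * K) ^ x := card_biUnion_le_card_mul _ _ _ h1
        _ ≤ _ := Nat.mul_le_mul_right _ (ih (L - x) (by omega) (by omega))
    refine card_biUnion_le.trans ((sum_le_sum hx).trans ?_)
    obtain ⟨J, hJ⟩ : ∃ J, J = 2 ^ M * K := ⟨_, rfl⟩
    have hJ2 : 2 ^ (M + 1) * K = 2 * J := by rw [hJ]; ring
    rw [hJ2, ← hJ]
    have h3 : ∀ x ∈ Icc 1 L, (2 * J) ^ (L - x) * J ^ x = 2 ^ (L - x) * J ^ L := by
      intro x hx
      rw [mem_Icc] at hx
      rw [mul_pow, mul_assoc, ← pow_add]
      congr 2
      omega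
    rw [sum_congr rfl h3, ← sum_mul, mul_pow]
    apply Nat.mul_le_mul_right
    have h4 : ∀ n : ℕ, ∑ x ∈ Icc 1 n, 2 ^ (n - x) + 1 = 2 ^ n := by
      intro n
      induction n with
      | zero => simp
      | succ n ihn =>
        rw [sum_Icc_succ_top (by omega)]
        have h5 : ∑ x ∈ Icc 1 n, 2 ^ (n + 1 - x) = 2 * ∑ x ∈ Icc 1 n, 2 ^ (n - x) := by
          rw [mul_sum]
          refine sum_congr rfl fun x hx => ?_
          rw [mem_Icc] at hx
          rw [← pow_succ']
          congr 1
          omega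
        rw [h5, pow_succ]
        simp only [Nat.sub_self, pow_zero]
        omega
    have := h4 L
    omega

/-- Large unions are rarely contained in the planted set. -/
theorem union_error {Q ρ c K : ℕ}
    {Y : Z → Set E} (hY : Spread Y (Q * ρ) (2 * c)) (hQ : 0 < Q)
    {N : Finset (Finset E)} (hN : ∀ a ∈ N, a.card ≤ c)
    (hdeg : ∀ (b : Finset E) (x : ℕ), 1 ≤ x →
      (N.filter fun a => b ⊆ a ∧ a.card = b.card + x).card ≤ (K * Q) ^ x)
    (hρ : 2 * (2 ^ (2 * c + 1) * K) ≤ ρ) (hρ0 : 0 < ρ) :
    avg (fun z => ind (∃ X : Finset E, (X : Set E) ⊆ Y z ∧ c < (uni N X).card))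
      ≤ 2 * (2 ^ (2 * c + 1) * K / ρ : ℝ) ^ (c + 1) := by
  classical
  obtain ⟨x, hx⟩ : ∃ x : ℝ, x = 2 ^ (2 * c + 1) * K / ρ := ⟨_, rfl⟩
  have hQr : (0 : ℝ) < Q := by exact_mod_cast hQ
  have hρr : (0 : ℝ) < ρ := by exact_mod_cast hρ0
  have hx0 : 0 ≤ x := by rw [hx]; positivity
  have hx1 : x ≤ 1 / 2 := by
    rw [hx, div_le_div_iff₀ hρr (by norm_num)]
    have h1 : ((2 * (2 ^ (2 * c + 1) * K) : ℕ) : ℝ) ≤ ρ := by exact_mod_cast hρ
    push_cast at h1
    linarith
  obtain ⟨F, hF⟩ : ∃ F : ℕ → Finset (Finset E),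
    F = fun L => univ.filter fun U : Finset E => U.card = L ∧ Gen N U := ⟨_, rfl⟩
  have hFc : ∀ L ≤ 2 * c, (F L).card ≤ (2 ^ (2 * c + 1) * (K * Q)) ^ L := by
    intro L hL
    rw [hF]
    exact card_gen hdeg L hL
  have hgeom : ∀ M : ℕ, ∑ l ∈ Finset.Ioc c (c + M), x ^ l ≤ 2 * x ^ (c + 1) := by
    intro M
    have h1 : ∀ M : ℕ, ∑ l ∈ Finset.Ioc c (c + M), x ^ l ≤ x ^ (c + 1) * (2 - 2 * (1 / 2) ^ M) := by
      intro M
      induction M with
      | zero => simp
      | succ M ih =>
        rw [← Nat.add_assoc, Finset.sum_Ioc_succ_top (by omega)]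
        have h2 : x ^ (c + M + 1) ≤ x ^ (c + 1) * (1 / 2) ^ M := by
          rw [show c + M + 1 = (c + 1) + M by ring, pow_add]
          gcongr
        have h3 : x ^ (c + 1) * (2 - 2 * (1 / 2) ^ (M + 1)) =
            x ^ (c + 1) * (2 - 2 * (1 / 2) ^ M) + x ^ (c + 1) * (1 / 2) ^ M := by
          rw [pow_succ (1 / 2 : ℝ) M]
          ring
        rw [h3]
        exact add_le_add ih h2
    refine (h1 M).trans ?_
    have h2 : 0 ≤ x ^ (c + 1) := by positivity
    have h3 : (0 : ℝ) < (1 / 2) ^ M := by positivity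
    nlinarith
  calc avg (fun z => ind (∃ X : Finset E, (X : Set E) ⊆ Y z ∧ c < (uni N X).card))
      ≤ avg (fun z => ∑ L ∈ Ioc c (c + c), ∑ V ∈ F L, ind ((V : Set E) ⊆ Y z)) := by
        apply avg_mono
        intro z
        by_cases h : ∃ X : Finset E, (X : Set E) ⊆ Y z ∧ c < (uni N X).card
        · rw [ind_true h]
          obtain ⟨X, hXY, hXc⟩ := h
          obtain ⟨V, hVg, hVX, hV1, hV2⟩ := exists_step c hXc hN
          have hVF : V ∈ F V.card := by
            rw [hF]
            simp [hVg]
          have hVY : (V : Set E) ⊆ Y z := (coe_subset.2 hVX).trans hXY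
          calc (1 : ℝ) = ind ((V : Set E) ⊆ Y z) := (ind_true hVY).symm
            _ ≤ ∑ V' ∈ F V.card, ind ((V' : Set E) ⊆ Y z) :=
                single_le_sum (f := fun V' : Finset E => ind ((V' : Set E) ⊆ Y z))
                  (fun b _ => ind_nonneg _) hVF
            _ ≤ _ := single_le_sum
                (f := fun l => ∑ V' ∈ F l, ind ((V' : Set E) ⊆ Y z))
                (fun l _ => sum_nonneg fun b _ => ind_nonneg _)
                (by rw [mem_Ioc]; omega)
        · rw [ind_false h]
          exact sum_nonneg fun l _ => sum_nonneg fun b _ => ind_nonneg _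
    _ = ∑ L ∈ Ioc c (c + c), ∑ V ∈ F L, avg (fun z => ind ((V : Set E) ⊆ Y z)) := by
        rw [avg_sum]
        exact sum_congr rfl fun l _ => avg_sum _ _
    _ ≤ ∑ L ∈ Ioc c (c + c), ∑ V ∈ F L, (1 / ((Q * ρ : ℕ) : ℝ)) ^ L := by
        apply sum_le_sum
        intro l hl
        apply sum_le_sum
        intro V hV
        rw [mem_Ioc] at hl
        rw [hF] at hV
        simp only [mem_filter] at hV
        have := hY V (by rw [hV.2.1]; omega)
        rw [hV.2.1] at this
        exact this
    _ ≤ ∑ L ∈ Ioc c (c + c), x ^ L := by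
        apply sum_le_sum
        intro l hl
        rw [mem_Ioc] at hl
        rw [sum_const, nsmul_eq_mul]
        have h1 : ((F l).card : ℝ) ≤ (2 ^ (2 * c + 1) * (K * Q)) ^ l := by
          exact_mod_cast hFc l (by omega)
        calc ((F l).card : ℝ) * (1 / ((Q * ρ : ℕ) : ℝ)) ^ l
            ≤ (2 ^ (2 * c + 1) * (K * Q)) ^ l * (1 / ((Q * ρ : ℕ) : ℝ)) ^ l := by gcongr
          _ = x ^ l := by
              rw [← mul_pow, hx]
              congr 1
              push_cast
              field_simp
    _ ≤ 2 * x ^ (c + 1) := hgeom c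
    _ = _ := by rw [hx]

end MonGates
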